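import Pool.Agent.helper35.BQ.All

/-!
# Dade's invariant conjecture: blocks with small `E_B / E[B]`, and reduction to reduced quotients with `E[B] = G`

`p` is a prime, `1 → G → E → A → 1` an extension of finite groups with `O_p(G) = 1`, `B` a block of `G` with
stabiliser `A_B ≤ A`, and `E[B]` is Dade's group (Block extensions, 1973): the elements `x` of `E_B` such that for a block
`B'` of `G⟨x⟩` over `B` and a conjugacy class `K` of `G⟨x⟩` contained in `xG` the central character of `B'` is not
zero at `K` modulo `M`. `A[B] = E[B] / G` is normal in `A_B`. Nothing is assumed.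

* (0) `k_C(B, d, U) = 0` for all radical chains `C`, and the alternating sum for `B`, `d`, `U` is zero, unless
  `A[B] ≤ U ≤ A_B`.
* (1) Let `𝒳` be a class of groups closed under subgroups and homomorphic images. The ordinary conjecture holds for `p`
  and the finite groups of `𝒳` if and only if the invariant conjecture holds for all `E` in `𝒳` and all `B` (all `d`,
  `U`) in each of the following cases:
  (i) `A_B / A[B]` has a normal `p`-subgroup with cyclic quotient;
  (ii) the group `Out(G)` has a normal `p`-subgroup with cyclic quotient;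
  (iii) `B` is the principal block and `Aut(S)` has a normal `p`-subgroup with cyclic quotient, `S` a Sylow
  `p`-subgroup of `G`;
  (iv) `A` is an extension of a `p`-group by an abelian `p'`-group generated by two elements, and the Sylow
  `r`-subgroups of `A` are cyclic for the primes `r ≠ p` dividing `|G|` (type `TwoT`);
  (v) every subgroup `V` with `A[B] ≤ V ≤ A_B` is a product `U A[B]`, with `U` of type `TwoT`.
  (If `p` divides `|A|` the class `𝒳` is supposed to be closed under direct products.)
* (2) Let `𝒳` be closed under subgroups, homomorphic images, direct products and central extensions by groups of order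
  prime to `p`, and `𝒞` closed under subgroups and homomorphic images (for example all groups). The invariant conjecture
  for all `E` in `𝒳` with `A` in `𝒞` is equivalent to its special case where `A` is reduced (`RedX`: every abelian
  minimal normal subgroup `N` of `A` has order prime to `p`, exactly `|N|` complements and, if it is not central, all
  crossed homomorphisms of `A / N` to the dual of `N` are principal), `U = A`, `B` is stable under `E`, and `E[B] = G`;
  this implies `C_E(G) ≤ G`, so that `A` acts faithfully on `G` by outer automorphisms.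

Sketch of the proof. Key lemma: `E[B]` fixes every pair `(C, ψ)`, `C` a radical chain of `G` and `ψ` an irreducible
character of `N_G(C)` with `b(ψ)^G = B`, up to conjugation by `G`. Let `y ∈ E` be such that for some `φ ∈ Irr(G⟨y⟩)` over
`B` the number `|K| φ(y) / φ(1)` is not in `M`, and assume `E = G⟨y⟩`. Let `ψ₁` be a character of `L = N_E(C)` over `ψ`.
If `Q` is the last term of `C`, then `Q C_E(Q) ≤ L ≤ N_E(Q)`, so `b(ψ₁)^E` is defined; let `φ₁` be a character in it. The
central characters of `φ` and `φ₁` agree modulo `M` on `Z(ℤG)^E`, and a power of the class sum of `y` is in this ring.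
Hence `|K| φ₁(y) / φ₁(1)` is not in `M`, so the class of `y` contains an element `x` of `L` with `ψ₁(x) ≠ 0`. As `L / N_G(C)` is
cyclic `ψ₁` vanishes outside the stabiliser of `ψ`. So `x` fixes `C` and `ψ`. This gives (0). For `U ≤ A` the
sum of the alternating sums over all `V ≥ U` is the alternating sum for the preimage `E_U` of `U` and `U`, which is zero
for the groups `U` of type `TwoT`, by (iv) (for (iv) see the sketch in `helper64/NQ`: commutator pairings of the cocycles
of the pairs, the relations of `helper35/DR`, inclusion and exclusion). Only the `V ≥ A[B]` contribute, and so the sum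
over the `V ≥ U A[B]` is zero; Möbius inversion gives (v). In the cases (i), (ii), (iii) the subgroups `U` exist by a
Frattini argument. In case (iii) `C_E(S) ≤ E[B]` because the class of an element of `C_E(S)` has order prime to `p`, and
in case (ii) `C_E(G) ≤ E[B]`. The ordinary conjecture is the case `A = 1`.

For (2) let `|A|` be minimal with a nonzero sum. By the reduction to reduced quotients (`helper35/DR`, applied to the class of
the sections of `A`) `A` is reduced. For `U < A` the sum of the alternating sums over all `V ≥ U` is the alternating sum for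
the preimage of `U` in `E` and `U`, hence zero, so only `U = A` remains, and `B` is stable. If `A[B]` is not trivial, there
is a proper subgroup `U` with `U A[B] = A`, as the Frattini subgroup of a reduced group is trivial; by (0) the alternating
sum for `A` is the sum of those for all `V ≥ U`, which is zero.
-/

set_option autoImplicit false

open Pool.Agent.helper58.DC Pool.Agent.DI Pool.Agent.DR Pool.Agent.NQ Pool.Agent.BQ

namespace Pool.Agent.Results.MP_baa4d7_al.BlockQuotients

/-- The trivial group has type `TwoT`. -/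
theorem twoT_unit (p n : ℕ) [Fact p.Prime] : TwoT p n Unit := by
  refine ⟨⟨⊤, ?_, inferInstance, fun _ _ => Subgroup.mem_top _, ?_, (), (), fun x =>
    ⟨0, 0, Subgroup.mem_top _⟩⟩, fun r hr _ _ R => ?_⟩
  · intro x
    exact ⟨0, Subsingleton.elim _ _⟩
  · rw [Subgroup.index_top]
    exact (Fact.out : p.Prime).one_lt.ne' ∘ Nat.dvd_one.1
  · exact isCyclic_of_subsingleton

theorem result (p : ℕ) [Fact p.Prime] (M : Ideal (integralClosure ℤ ℂ)) (hM : M.IsMaximal)
    (hp : (p : integralClosure ℤ ℂ) ∈ M) :
    (∀ (G E A : Type) [Group G] [Group E] [Group A] [Finite G] [Finite E] (X : Extension G E A),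
      IsOp p (⊤ : Subgroup G) ⊥ → ∀ χ ∈ Irr G,
        AI X M χ ≤ AB X M χ ∧ (∀ v ∈ AB X M χ, ∀ w ∈ AI X M χ, v * w * v⁻¹ ∈ AI X M χ) ∧
        ∀ (d : ℤ) (U : Subgroup A), ¬ (AI X M χ ≤ U ∧ U ≤ AB X M χ) →
          (∀ C : Finset (Subgroup G), IsRadical p C → kC X p M χ d U C = 0) ∧
          altSum X p M χ d U = 0) ∧
    (∀ 𝒳 : (E : Type) → [Group E] → Prop, ClX 𝒳 →
      (OrdX p M 𝒳 ↔
        ∀ (G E A : Type) [Group G] [Group E] [Group A] [Finite G] [Finite E]
          (X : Extension G E A), 𝒳 E → (PrX 𝒳 ∨ ¬ p ∣ Nat.card A) →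
          IsOp p (⊤ : Subgroup G) ⊥ → ∀ χ ∈ Irr G, PosDefect p M χ →
          (PCyc p (AI X M χ) (AB X M χ) ∨ PCyc p (MulAut.conj : G →* MulAut G).range ⊤ ∨
            (χ = (fun _ => 1) ∧ ∃ (S : Sylow p G) (P : Subgroup (MulAut S)), IsPGroup p P ∧ CycQ P) ∨
            TwoT p (Nat.card G) A ∨ SupT p (Nat.card G) (AI X M χ) (AB X M χ)) →
          ∀ (d : ℤ) (U : Subgroup A), altSum X p M χ d U = 0)) ∧
    ∀ 𝒳 : (E : Type) → [Group E] → Prop, ClX 𝒳 → PrX 𝒳 → CeX p 𝒳 →
      ∀ 𝒞 : (A : Type) → [Group A] → Prop, ClX 𝒞 →
      ((∀ (G E A : Type) [Group G] [Group E] [Group A] [Finite G] [Finite E] (X : Extension G E A),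
        𝒳 E → 𝒞 A → IsOp p (⊤ : Subgroup G) ⊥ → ∀ χ ∈ Irr G, PosDefect p M χ →
        ∀ (d : ℤ) (U : Subgroup A), altSum X p M χ d U = 0) ↔
      ∀ (G E A : Type) [Group G] [Group E] [Group A] [Finite G] [Finite E] (X : Extension G E A),
        𝒳 E → 𝒞 A → IsOp p (⊤ : Subgroup G) ⊥ → ∀ χ ∈ Irr G, PosDefect p M χ →
        RedX p A → AB X M χ = ⊤ → AI X M χ = ⊥ →
        (∀ y : E, (∀ g, X.act y g = g) → y ∈ X.inc.range) →
        ∀ d : ℤ, altSum X p M χ d ⊤ = 0) := by
  refine ⟨?_, ?_, fun 𝒳 h𝒳 hPr hCe 𝒞 h𝒞 => All.red p M hM hp 𝒳 h𝒳 hPr hCe 𝒞 h𝒞⟩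
  · intro G E A _ _ _ _ _ X hG χ hχ
    obtain ⟨⟨h1, h2, h3⟩, -⟩ := All.main p M hM hp G E A X hG χ hχ
    refine ⟨h1, h2, fun d U hU => ⟨fun C hC => h3 C hC d U hU, ?_⟩⟩
    unfold altSum
    refine finsum_eq_zero_of_forall_eq_zero fun c => ?_
    rw [h3 c.out.1 c.out.2 d U hU]
    simp
  · intro 𝒳 hCl
    constructor
    · intro hO G E A _ _ _ _ _ X hE hPr hG χ hχ hpos hc d U
      exact (All.main p M hM hp G E A X hG χ hχ).2 𝒳 hCl hO hE hPr hpos hc d U
    · intro h G _ _ hGX hG χ hχ hpos d
      refine h G G Unit (trivE G) hGX (Or.inr ?_) hG χ hχ hpos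
        (Or.inr (Or.inr (Or.inr (Or.inl (twoT_unit p _))))) d ⊤
      rw [Nat.card_unique]
      exact (Fact.out : p.Prime).one_lt.ne' ∘ Nat.dvd_one.1

end Pool.Agent.Results.MP_baa4d7_al.BlockQuotients
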