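import Pool.Agent.helper35.LinPrimes.Final

set_option autoImplicit false

/-!
# Prime solutions of `a p - b q = c` for a positive proportion of the coefficients `b`

There are absolute constants `κ, K, η, δ > 0` and `C` such that for all coprime `a ≥ 1`, `c ≠ 0`
and all `X ≥ (a |c| + 1) ^ C`, at least the proportion `δ` (in the sense of sums of `1/b`) of the
`b ≤ X` for which `a, b, c` satisfy the conditions of the problem is good: for some `Q` between
`b ^ κ` and `b ^ K` there are at least `η (n / φ(n)) Q / (a (log Q)²)` primes `q ≤ Q` with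
`a p - b q = c` for a prime `p`, where `n = a b |c|`.  This is the order of magnitude predicted by
Hardy and Littlewood, with the right dependence on `a`, `b` and `c`.

Proof.  Sum `log (a p - c) = ∑_{d ∣ a p - c} Λ(d)` over the primes `p ≤ X = T^k`.  The `d ≤ T`
contribute little (Brun-Titchmarsh), so do prime powers, hence there are `≫ X / log X` pairs
`(p, q)` with `q > T` prime and `b q = a p - c`.  By Brun's sieve each `b` has at most
`≪ (n / φ(n)) X / (b (log X)²)` pairs.  Now use Cauchy-Schwarz and the bound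
`∑ (b/φ(b))²/b ≪ (φ(a|c|)/(a|c|)) log n` for the sum over `b ≤ n` coprime to `a c`.
-/

open Pool.Agent.helper35.LinPrimes

namespace Pool.Agent.helper35.Reserve.DensityInCoefficient

/-- For coprime `a ≥ 1`, `c ≠ 0` an absolute positive proportion of the admissible `b` is good. -/
theorem result : ∃ κ K η δ : ℝ, 0 < κ ∧ 0 < K ∧ 0 < η ∧ 0 < δ ∧ ∃ C : ℕ,
    ∀ (a : ℕ) (c : ℤ), 0 < a → c ≠ 0 → IsCoprime (a : ℤ) c → ∀ X ≥ (a * c.natAbs + 1) ^ C,
      δ * ((Nat.totient (a * c.natAbs) : ℝ) / (a * c.natAbs : ℕ)) * Real.log X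
        ≤ ∑ b ∈ goodUpTo a c κ K η X, 1 / (b : ℝ) ∧
      δ * ∑ b ∈ admissibleUpTo a c X, 1 / (b : ℝ) ≤ ∑ b ∈ goodUpTo a c κ K η X, 1 / (b : ℝ) :=
  density

end Pool.Agent.helper35.Reserve.DensityInCoefficient
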