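import Pool.Agent.helper5.PR.AsmZ

/-!
# Groups whose finite quotients are quotients of `SL(n, ℤ)`: an exact classification

Let `n ≥ 3` and let `L` be a group. Then `L` is finitely generated, residually finite, every finite quotient of `L` is
a quotient of `SL(n, ℤ)`, and `L` contains a finitely generated torsion-free solvable subgroup that is not virtually
linear of degree `n - 1` in characteristic zero, if and only if `L` is a quotient by a central subgroup of a group
`SL(n, ℤ[1/m]) × SL(n, ℤ/d)`, where `m, d ≥ 1` and every prime divisor of `d` divides `m`. If in addition every finite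
quotient of `SL(n, ℤ)` is a quotient of `L` (that is, if `L` and `SL(n, ℤ)` have the same finite quotients) then `L` is
isomorphic to `SL(n, ℤ)`.
-/

set_option autoImplicit false

namespace Pool.Agent.Results.MP_a2a22c_al.ExactClassification

open Matrix

/-- `L` is finitely generated, residually finite, and every finite quotient of `L` is a quotient of `SL(n, ℤ)`. -/
structure Dominated (n : ℕ) (L : Type) [Group L] : Prop where
  fg : Group.FG L
  rf : ∀ g : L, g ≠ 1 → ∃ N : Subgroup L, N.FiniteIndex ∧ g ∉ N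
  quot : ∀ (Q : Type) [Group Q] [Finite Q], (∃ f : L →* Q, Function.Surjective f) →
    ∃ f : SpecialLinearGroup (Fin n) ℤ →* Q, Function.Surjective f

/-- `L` contains a finitely generated torsion-free solvable subgroup `P` such that no subgroup of finite index of `P`
embeds in `GL(k, E)` for a field `E` of characteristic zero. -/
def HasSolvable (k : ℕ) (L : Type) [Group L] : Prop :=
  ∃ P : Subgroup L, Group.FG P ∧ Group.IsSolvable P ∧ (∀ g : P, g ≠ 1 → ∀ j : ℕ, 0 < j → g ^ j ≠ 1) ∧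
    ∀ H : Subgroup P, H.FiniteIndex → ∀ (E : Type) [Field E] [CharZero E] (f : H →* GL (Fin k) E),
      ¬ Function.Injective f

/-- `ℤ[1/m]`, the subring of `ℚ` generated by `1/m`. -/
abbrev ZInv (m : ℕ) : Subalgebra ℤ ℚ := Algebra.adjoin ℤ {((m : ℚ))⁻¹}

/-- `L` is a quotient by a central subgroup of `SL(n, ℤ[1/m]) × SL(n, ℤ/d)`, `m, d ≥ 1`, every prime divisor of `d`
divides `m`. -/
def SArithmetic (n : ℕ) (L : Type) [Group L] : Prop :=
  ∃ (m d : ℕ) (f : SpecialLinearGroup (Fin n) (ZInv m) × SpecialLinearGroup (Fin n) (ZMod d) →* L),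
    1 ≤ m ∧ 1 ≤ d ∧ (∀ q : ℕ, q.Prime → q ∣ d → q ∣ m) ∧ Function.Surjective f ∧
    f.ker ≤ Subgroup.center (SpecialLinearGroup (Fin n) (ZInv m) × SpecialLinearGroup (Fin n) (ZMod d))

theorem result (n : ℕ) (hn : 3 ≤ n) (L : Type) [Group L] :
    ((Dominated n L ∧ HasSolvable (n - 1) L) ↔ SArithmetic n L) ∧
    (Dominated n L → HasSolvable (n - 1) L →
      (∀ (Q : Type) [Group Q] [Finite Q], (∃ f : SpecialLinearGroup (Fin n) ℤ →* Q, Function.Surjective f) →
        ∃ f : L →* Q, Function.Surjective f) →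
      Nonempty (L ≃* SpecialLinearGroup (Fin n) ℤ)) := by
  obtain ⟨h1, h2⟩ := Pool.Agent.PR.tZ_FINAL n hn L
  have hrf1 : (∀ g : L, g ≠ 1 → ∃ N : Subgroup L, N.FiniteIndex ∧ g ∉ N) → Pool.Agent.PR.RF L := by
    intro h g hg
    obtain ⟨N, hN, hgN⟩ := h g hg
    exact ⟨N, hN.index_ne_zero, hgN⟩
  have hrf2 : Pool.Agent.PR.RF L → ∀ g : L, g ≠ 1 → ∃ N : Subgroup L, N.FiniteIndex ∧ g ∉ N := by
    intro h g hg
    obtain ⟨N, hN, hgN⟩ := h g hg
    exact ⟨N, ⟨hN⟩, hgN⟩
  refine ⟨⟨?_, ?_⟩, ?_⟩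
  · rintro ⟨⟨hfg, hrf, hq⟩, P, hP⟩
    exact h1.1 ⟨hfg, hrf1 hrf, hq, P, hP⟩
  · intro h
    obtain ⟨hfg, hrf, hq, P, hP⟩ := h1.2 h
    exact ⟨⟨hfg, hrf2 hrf, hq⟩, P, hP⟩
  · rintro ⟨hfg, hrf, hq⟩ ⟨P, hP⟩ hq2
    exact h2 hfg (hrf1 hrf) hq hq2 ⟨P, hP⟩

end Pool.Agent.Results.MP_a2a22c_al.ExactClassification
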