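import Pool.Agent.helper11.MR.STR
import Pool.Agent.helper20.MR.BALL
import Pool.Agent.helper20.MR.CNV
import Pool.Agent.helper30.MR.R2
import Pool.Agent.helper34.MR.MRG
import Pool.Agent.helper46.MR.B3
import Pool.Agent.helper46.MR.KB2
import Pool.Agent.helper46.MR.KT
import Pool.Agent.helper46.MR.R1
import Pool.Agent.helper52.MR.OPT
import Pool.Agent.helper54.MR.U1
import Pool.Agent.helper54.MR.U2
import Pool.Agent.helper61.MR.CMP
import Pool.Agent.helper61.MR.LW
import Pool.Agent.helper64.MR.KB1
import Pool.Agent.helper70.MR.B1S
import Pool.Agent.helper70.MR.KA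
import Pool.Agent.helper70.MR.S1
import Pool.Agent.helper70.MR.S2
import Pool.Agent.helper72.MR.B1
import Pool.Agent.helper72.MR.B2
import Pool.Agent.helper72.MR.BT
import Pool.Agent.helper72.MR.BX
import Pool.Agent.helper72.MR.CASE
import Pool.Agent.helper72.MR.CHB
import Pool.Agent.helper72.MR.CUB
import Pool.Agent.helper72.MR.FS
import Pool.Agent.helper72.MR.LI
import Pool.Agent.helper72.MR.R0
import Pool.Agent.helper72.MR.SL3
import Pool.Agent.helper72.MR.TGT
import Pool.Agent.helper72.MR.U3
import Pool.Agent.helper72.MR.U4
import Pool.Agent.helper79.MR.R3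
import Pool.Agent.helper79.MR.SYM
import Pool.Agent.helper82.MR.R3A
import Pool.Agent.helper90.MR.P1
import Pool.Agent.helper90.MR.RAM
import Pool.Agent.helper91.MR.ALL3
import Pool.Agent.helper91.MR.BLK
import Pool.Agent.helper91.MR.KALL
import Pool.Agent.helper92.MR.EXT
import Pool.Agent.helper92.MR.R3B

/-!
# Order three, boundedly many values (in particular finite fields)

Q1 of MP_b48e27_co for order `d = 3`, for every family `R` of partitions, with a bound `G m l` which depends
only on `l` and on a bound `m` for the number of different values of the tensor; in particular over every finite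
field (`m` the number of its elements).

Proof: a Ramsey argument gives, in a tensor of large slice rank with few values, minors whose entries depend only
on the order type of three integers (positions), by a function `V` which is not a sum of functions of two of the
positions; every such `V` has, for every `l ≥ 3`, a choice of `l` positions for each of the three directions
such that the minor has slice rank `l`: words `(xyz)(xyz)...`, `t(xy)z(xy)z...`, `xyzPP...P` (`P` a triple
point). The other families of partitions (two directions: a generic minor of a pencil of matrices) are settled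
over all fields for all tensors.
-/

set_option autoImplicit false

open Finset

namespace Pool.Agent.Results.MP_b48e27_co.OrderThreeFewValues

open Pool.Agent.RRank Pool.Agent.helper35.MR

theorem all3 : ALL3_stmt :=
  have hEXT : EXT_stmt := EXT TGT
  have hBX : BX_stmt := BX BT hEXT CHB LI OPT
  have hSTR : STR_stmt := STR (S1 MRG) (S2 MRG) SYM
  have hKALL : KALL_stmt :=
    KALL (KA CHB LI hEXT OPT KT) (KB1 CHB LI hEXT OPT KT) (KB2 CHB LI hEXT OPT KT) SYM
  have hBALL : BALL_stmt :=
    BALL (B1 hBX) (B1S MRG) (B2 hBX) (B3 hBX) (U1 hBX) (U2 hBX) (U3 hEXT CHB LI OPT) (U4 TGT) SYM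
  have hCASE : CASE_stmt := CASE hSTR hKALL hBALL SYM
  have hSL3 : SL3_stmt := SL3 (P1 RAM (BLK CUB) LW) CNV hCASE CMP FS
  ALL3 R0 R1 R2 (R3 R3A R3B) hSL3

/-- Q1 for order three: there is a function `G` such that for every nonempty family `R` of partitions of the
three indices, every field `K` and every tensor with at most `m` different values and of `R`-rank at least
`G m l` there is a minor with all sides of size at most `l` and of `R`-rank at least `l`. -/
theorem result : ∃ G : ℕ → ℕ → ℕ, ∀ (R : Set (IndexPartition 3)), R.Nonempty →
    ∀ (K : Type) [Field K] (Q : Fin 3 → Type) [∀ α, Finite (Q α)] (T : ((α : Fin 3) → Q α) → K)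
    (m l : ℕ), (Set.range T).ncard ≤ m → (G m l : ℕ∞) ≤ rank R T →
    ∃ X : (α : Fin 3) → Finset (Q α), (∀ α, (X α).card ≤ l) ∧ (l : ℕ∞) ≤ rank R (minor T X) :=
  all3

end Pool.Agent.Results.MP_b48e27_co.OrderThreeFewValues
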