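import Pool.Agent.helper35.BQ.All

/-!
# Dade's invariant conjecture: reduction to reduced quotients `E / G`, blocks with `E[B] = G`, and `U = E / G`

`𝒳` is a class of groups closed under subgroups, homomorphic images, direct products and central extensions by groups of
order prime to `p`, and `𝒞` a class of groups closed under subgroups and homomorphic images (for example all groups). The
invariant conjecture for all `E` in `𝒳` with `E / G` in `𝒞` is equivalent to its special case where `A = E / G` is
reduced (`RedX`: every abelian minimal normal subgroup `N` of `A` has order prime to `p`, exactly `|N|` complements and, if it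
is not central, all crossed homomorphisms of `A / N` to the dual of `N` are principal), `U = A`, `B` is stable under `E`,
and `E[B] = G`, where `E[B]` is Dade's group (Block extensions, 1973); this implies `C_E(G) ≤ G`, so that `A` acts faithfully
on `G` by outer automorphisms.

Sketch of the proof. Let `|A|` be minimal with a nonzero sum. By the reduction to reduced quotients (`helper35/DR`,
applied to the class of the sections of `A`) `A` is reduced. For `U < A` the sum of the alternating sums over all `V ≥ U` is the
alternating sum for the preimage of `U` in `E` and `U`, hence zero, so only `U = A` remains, and `B` is stable. If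
`A[B] = E[B] / G` is not trivial, there is a proper subgroup `U` with `U A[B] = A`, as the Frattini subgroup of a reduced group
is trivial; as `k_C(B, d, V) = 0` unless `A[B] ≤ V` (see `BlockQuotients`) the alternating sum for `A` is the sum of those
for all `V ≥ U`, which is zero.
-/

set_option autoImplicit false

open Pool.Agent.helper58.DC Pool.Agent.DI Pool.Agent.DR Pool.Agent.NQ Pool.Agent.BQ

namespace Pool.Agent.helper35.Reserve.ReducedBlocks

theorem result (p : ℕ) [Fact p.Prime] (M : Ideal (integralClosure ℤ ℂ)) (hM : M.IsMaximal)
    (hp : (p : integralClosure ℤ ℂ) ∈ M) (𝒳 : (E : Type) → [Group E] → Prop) (h𝒳 : ClX 𝒳)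
    (hPr : PrX 𝒳) (hCe : CeX p 𝒳) (𝒞 : (A : Type) → [Group A] → Prop) (h𝒞 : ClX 𝒞) :
    (∀ (G E A : Type) [Group G] [Group E] [Group A] [Finite G] [Finite E] (X : Extension G E A),
      𝒳 E → 𝒞 A → IsOp p (⊤ : Subgroup G) ⊥ → ∀ χ ∈ Irr G, PosDefect p M χ →
      ∀ (d : ℤ) (U : Subgroup A), altSum X p M χ d U = 0) ↔
    (∀ (G E A : Type) [Group G] [Group E] [Group A] [Finite G] [Finite E] (X : Extension G E A),
      𝒳 E → 𝒞 A → IsOp p (⊤ : Subgroup G) ⊥ → ∀ χ ∈ Irr G, PosDefect p M χ →
      RedX p A → AB X M χ = ⊤ → AI X M χ = ⊥ → (∀ y : E, (∀ g, X.act y g = g) → y ∈ X.inc.range) →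
      ∀ d : ℤ, altSum X p M χ d ⊤ = 0) :=
  All.red p M hM hp 𝒳 h𝒳 hPr hCe 𝒞 h𝒞

end Pool.Agent.helper35.Reserve.ReducedBlocks
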