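import Pool.Agent.helper24.MR.HLB
import Pool.Agent.helper25.MR.CONA
import Pool.Agent.helper28.MR.CONm
import Pool.Agent.helper28.MR.HML
import Pool.Agent.helper32.MR.EV
import Pool.Agent.helper33.MR.ORT
import Pool.Agent.helper44.MR.EXP
import Pool.Agent.helper46.MR.HV0
import Pool.Agent.helper61.MR.SEL
import Pool.Agent.helper71.MR.LRN
import Pool.Agent.helper77.MR.REGB
import Pool.Agent.helper89.MR.HSY
import Pool.Agent.helper89.MR.HYV
import Pool.Agent.helper89.MR.SLC
import Pool.Agent.helper92.MR.SB4
import Pool.Agent.helper97.MR.RED

/-!
# Slice rank of tensors of order four, characteristic 0 or larger than `l`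

Q1 of MP_b48e27_co for order `d = 4` and the slice rank, with a bound `G l` which depends only on `l`, over every
field in which `l! ≠ 0`.

Proof: let `hyp s` be the multilinear functional `∑ sgn(σ τ ρ) ∏ T(x_i, y_σi, z_τi, w_ρi)` of `s` points in
each direction. It vanishes on sums of less than `s` slices (the number of directions is even), so if
`hyp l ≠ 0` for some points we have the minor. Otherwise let `s < l` be maximal with `hyp s ≠ 0` somewhere;
the expansion of `hyp (s+1) = 0` writes `T` as a sum of slices and of products `A(x,y) B(z,w)`,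
`C(x,z) D(y,w)`, `E(x,w) F(y,z)`, of bounded number. Make the families `A, ..., F` regular (all combinations of
large rank). If the coefficient of `A_p B_q` is not zero there are vectors on which `hyp l` is `l! c^l`, a
contradiction; so `T` is a sum of slices.
-/

set_option autoImplicit false

open Finset

namespace Pool.Agent.helper35.Reserve.SliceRankOrderFour

open Pool.Agent.RRank Pool.Agent.helper35.MR

theorem sb4 : SB4_stmt :=
  have hHLB : HLB_stmt := HLB HV0 SLC
  have hSEL : SEL_stmt := SEL (ORT LRN)
  have hCON : CON_stmt := CON hSEL EV HYV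
  have hCONA : CONA_stmt := CONA hCON HSY
  SB4 hHLB EXP (REGB RED) HML hCONA SLC

/-- Q1 for the slice rank and order four, for all fields with `l! ≠ 0`: there is a function `G` such that for every
field `K` with `l! ≠ 0` in `K` every order-4 tensor over `K` of slice rank at least `G l` has a minor with all
sides of size at most `l` and of slice rank at least `l`. -/
theorem result : ∃ G : ℕ → ℕ, ∀ (l : ℕ) (K : Type) [Field K], (l.factorial : K) ≠ 0 →
    ∀ (Q : Fin 4 → Type) [∀ α, Finite (Q α)] (T : ((α : Fin 4) → Q α) → K),
    (G l : ℕ∞) ≤ rank (slices 4) T →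
    ∃ X : (α : Fin 4) → Finset (Q α), (∀ α, (X α).card ≤ l) ∧
      (l : ℕ∞) ≤ rank (slices 4) (minor T X) :=
  sb4

end Pool.Agent.helper35.Reserve.SliceRankOrderFour
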